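import Mathlib

set_option autoImplicit false

namespace Pool.Agent.Results.MP_43f51c_co.UnboundedGap

/-- `S` is a dominating set of `G`: every closed neighbourhood meets `S`. -/
def IsDominating {V : Type*} (G : SimpleGraph V) (S : Finset V) : Prop :=
  ∀ v : V, ∃ w ∈ S, w = v ∨ G.Adj v w

/-- `S` is an outer-connected dominating set of `G`: it is dominating and the graph obtained by
deleting `S` is connected (in particular nonempty). -/
def IsOuterConnectedDominating {V : Type*} (G : SimpleGraph V) (S : Finset V) : Prop :=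
  IsDominating G S ∧ (G.induce {v : V | v ∉ S}).Connected

/-- The outer-connected domination number: the minimum size of an outer-connected dominating set. -/
noncomputable def outerConnectedDominationNumber {V : Type*} (G : SimpleGraph V) : ℕ :=
  sInf {k : ℕ | ∃ S : Finset V, IsOuterConnectedDominating G S ∧ S.card = k}

/-- The adjacency relation of the middle graph of `G`, on the disjoint union of the vertices and
the edges of `G`. -/
def MiddleAdj {V : Type*} (G : SimpleGraph V) : V ⊕ G.edgeSet → V ⊕ G.edgeSet → Prop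
  | Sum.inl _, Sum.inl _ => False
  | Sum.inl v, Sum.inr e => v ∈ (e : Sym2 V)
  | Sum.inr e, Sum.inl v => v ∈ (e : Sym2 V)
  | Sum.inr e, Sum.inr f => e ≠ f ∧ ∃ v : V, v ∈ (e : Sym2 V) ∧ v ∈ (f : Sym2 V)

/-- The middle graph of `G`. -/
def middleGraph {V : Type*} (G : SimpleGraph V) : SimpleGraph (V ⊕ G.edgeSet) where
  Adj := MiddleAdj G
  symm := ⟨by
    rintro (u | e) (v | f) h
    · exact h
    · exact h
    · exact h
    · exact ⟨fun h' => h.1 h'.symm, h.2.imp fun v hv => ⟨hv.2, hv.1⟩⟩⟩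
  loopless := ⟨by
    rintro (u | e) h
    · exact h
    · exact h.1 rfl⟩

/-- The chain of `N` triangles: vertices `0, …, 4N-1`, the path edges `x, x+1` and the chords
`4i, 4i+2`. -/
def chain (N : ℕ) : SimpleGraph (Fin (4 * N)) where
  Adj a b := a.val + 1 = b.val ∨ b.val + 1 = a.val ∨ (a.val % 4 = 0 ∧ b.val = a.val + 2) ∨
    (b.val % 4 = 0 ∧ a.val = b.val + 2)
  symm := ⟨by
    intro a b h
    rcases h with h | h | h | h
    · exact Or.inr (Or.inl h)
    · exact Or.inl h
    · exact Or.inr (Or.inr (Or.inr h))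
    · exact Or.inr (Or.inr (Or.inl h))⟩
  loopless := ⟨by
    intro a h
    rcases h with h | h | h | h <;> omega⟩

theorem chain_adj {N : ℕ} {a b : Fin (4 * N)} : (chain N).Adj a b ↔
    (a.val + 1 = b.val ∨ b.val + 1 = a.val ∨ (a.val % 4 = 0 ∧ b.val = a.val + 2) ∨
    (b.val % 4 = 0 ∧ a.val = b.val + 2)) := Iff.rfl

theorem chain_reach {N : ℕ} (hN : 0 < N) : ∀ (x : ℕ) (hx : x < 4 * N),
    (chain N).Reachable ⟨0, by omega⟩ ⟨x, hx⟩ := by
  intro x
  induction x with
  | zero => intro hx; exact SimpleGraph.Reachable.refl _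
  | succ x ih =>
    intro hx
    refine (ih (by omega)).trans (SimpleGraph.Adj.reachable ?_)
    exact Or.inl rfl

theorem chain_connected {N : ℕ} (hN : 0 < N) : (chain N).Connected := by
  have : Nonempty (Fin (4 * N)) := ⟨⟨0, by omega⟩⟩
  refine SimpleGraph.Connected.mk ?_
  intro a b
  exact (chain_reach hN a.val a.isLt).symm.trans (chain_reach hN b.val b.isLt)

/-- Membership of the natural number `i` in the complement of `S`. -/
def Out {N : ℕ} (S : Finset (Fin (4 * N))) (i : ℕ) : Prop :=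
  ∃ h : i < 4 * N, (⟨i, h⟩ : Fin (4 * N)) ∉ S

theorem bridge {N : ℕ} (S : Finset (Fin (4 * N)))
    (hc : ((chain N).induce {v : Fin (4 * N) | v ∉ S}).Connected)
    (t : ℕ) (ht : t % 4 = 2 ∨ t % 4 = 3) (a b : ℕ) (ha : Out S a) (hb : Out S b)
    (hat : a ≤ t) (hbt : t < b) : Out S t ∧ Out S (t + 1) := by
  by_contra hcon
  obtain ⟨ha1, ha2⟩ := ha
  obtain ⟨hb1, hb2⟩ := hb
  have key : ∀ (x y : {v : Fin (4 * N) | v ∉ S})
      (p : ((chain N).induce {v : Fin (4 * N) | v ∉ S}).Walk x y),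
      x.1.val ≤ t → y.1.val ≤ t := by
    intro x y p
    induction p with
    | nil => exact id
    | @cons u v w h p ih =>
      intro hu
      apply ih
      by_contra hv
      push Not at hv
      have h' : (chain N).Adj u.1 v.1 := h
      rw [chain_adj] at h'
      apply hcon
      have h1 : u.1.val = t ∧ v.1.val = t + 1 := by omega
      refine ⟨⟨by omega, ?_⟩, ⟨by omega, ?_⟩⟩
      · have : (⟨t, by omega⟩ : Fin (4 * N)) = u.1 := Fin.ext h1.1.symm
        rw [this]; exact u.2
      · have : (⟨t + 1, by omega⟩ : Fin (4 * N)) = v.1 := Fin.ext h1.2.symm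
        rw [this]; exact v.2
  obtain ⟨p⟩ := hc.preconnected ⟨⟨a, ha1⟩, ha2⟩ ⟨⟨b, hb1⟩, hb2⟩
  have := key _ _ p hat
  simp at this
  omega

theorem no_mid {N : ℕ} (S : Finset (Fin (4 * N))) (hS : IsOuterConnectedDominating (chain N) S)
    (z a b : ℕ) (hz : z % 4 = 3) (ha : Out S a) (hb : Out S b) (haz : a < z) (hzb : z < b) :
    False := by
  obtain ⟨hd, hc⟩ := hS
  have h1 := bridge S hc (z - 1) (by omega) a b ha hb (by omega) (by omega)
  have h2 := bridge S hc z (by omega) a b ha hb (by omega) (by omega)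
  obtain ⟨⟨hz1, hz2⟩, ⟨hz3, hz4⟩⟩ := h2
  obtain ⟨⟨hy1, hy2⟩, -⟩ := h1
  obtain ⟨w, hw, hw'⟩ := hd ⟨z, hz1⟩
  rcases hw' with hw' | hw'
  · rw [hw'] at hw; exact hz2 hw
  · rw [chain_adj] at hw'
    simp only at hw'
    have h5 : w.val = z - 1 ∨ w.val = z + 1 := by omega
    rcases h5 with h5 | h5
    · apply hy2
      have : (⟨z - 1, hy1⟩ : Fin (4 * N)) = w := Fin.ext h5.symm
      rw [this]; exact hw
    · apply hz4
      have : (⟨z + 1, hz3⟩ : Fin (4 * N)) = w := Fin.ext h5.symm
      rw [this]; exact hw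

theorem card_compl_le {N : ℕ} (S : Finset (Fin (4 * N)))
    (hS : IsOuterConnectedDominating (chain N) S) : Sᶜ.card ≤ 4 := by
  by_contra hcard
  push Not at hcard
  have hne : Sᶜ.Nonempty := Finset.card_pos.mp (by omega)
  set x := Sᶜ.min' hne with hx
  set y := Sᶜ.max' hne with hy
  have hxm : x ∉ S := by
    have := Sᶜ.min'_mem hne
    rwa [Finset.mem_compl] at this
  have hym : y ∉ S := by
    have := Sᶜ.max'_mem hne
    rwa [Finset.mem_compl] at this
  have hsub : Sᶜ ⊆ Finset.Icc x y := by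
    intro v hv
    rw [Finset.mem_Icc]
    exact ⟨Finset.min'_le _ _ hv, Finset.le_max' _ _ hv⟩
  have hcard2 : Sᶜ.card ≤ y.val + 1 - x.val := by
    have := Finset.card_le_card hsub
    rwa [Fin.card_Icc] at this
  have hxo : Out S x.val := ⟨x.isLt, hxm⟩
  have hyo : Out S y.val := ⟨y.isLt, hym⟩
  have hmid : ∀ z : ℕ, z % 4 = 3 → x.val < z → z < y.val → False :=
    fun z hz h1 h2 => no_mid S hS z x.val y.val hz hxo hyo h1 h2
  have hA : x.val % 4 = 3 ∧ y.val = x.val + 4 := by
    have hm0 := hmid (x.val + 1)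
    have hm1 := hmid (x.val + 2)
    have hm2 := hmid (x.val + 3)
    have hm3 := hmid (x.val + 4)
    have : x.val % 4 < 4 := Nat.mod_lt _ (by norm_num)
    interval_cases hh : x.val % 4
    · exact (hm2 (by omega) (by omega) (by omega)).elim
    · exact (hm1 (by omega) (by omega) (by omega)).elim
    · exact (hm0 (by omega) (by omega) (by omega)).elim
    · refine ⟨rfl, ?_⟩
      by_contra hne'
      exact hm3 (by omega) (by omega) (by omega)
  obtain ⟨hx3, hy4⟩ := hA
  have hEq : Sᶜ = Finset.Icc x y := by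
    apply Finset.eq_of_subset_of_card_le hsub
    rw [Fin.card_Icc]; omega
  have hlt : x.val + 2 < 4 * N := by have := y.isLt; omega
  have hin : ∀ v : Fin (4 * N), x.val ≤ v.val → v.val ≤ y.val → v ∉ S := by
    intro v h1 h2
    have : v ∈ Sᶜ := by
      rw [hEq, Finset.mem_Icc]
      exact ⟨h1, h2⟩
    rwa [Finset.mem_compl] at this
  obtain ⟨w, hw, hw'⟩ := hS.1 ⟨x.val + 2, hlt⟩
  rcases hw' with hw' | hw'
  · exact hin w (by rw [hw']; simp) (by rw [hw']; simp; omega) hw
  · rw [chain_adj] at hw'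
    simp only at hw'
    exact hin w (by omega) (by omega) hw

theorem exists_ocd {V : Type*} [Fintype V] [DecidableEq V] (G : SimpleGraph V) (v : V)
    (hv : ∃ w, G.Adj v w) :
    IsOuterConnectedDominating G (Finset.univ.erase v) := by
  refine ⟨?_, ?_⟩
  · intro u
    by_cases h : u = v
    · obtain ⟨w, hw⟩ := hv
      refine ⟨w, ?_, Or.inr (h ▸ hw)⟩
      rw [Finset.mem_erase]
      exact ⟨hw.ne', Finset.mem_univ _⟩
    · exact ⟨u, by simp [h], Or.inl rfl⟩
  · have : Nonempty {u : V | u ∉ Finset.univ.erase v} := ⟨⟨v, by simp⟩⟩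
    refine SimpleGraph.Connected.mk ?_
    rintro ⟨a, ha⟩ ⟨b, hb⟩
    have ha' : a = v := by simpa using ha
    have hb' : b = v := by simpa using hb
    subst ha'
    subst hb'
    exact SimpleGraph.Reachable.refl _

theorem lower {N : ℕ} (hN : 0 < N) : 4 * N ≤ outerConnectedDominationNumber (chain N) + 4 := by
  have hne : {k : ℕ | ∃ S : Finset (Fin (4 * N)),
      IsOuterConnectedDominating (chain N) S ∧ S.card = k}.Nonempty :=
    ⟨_, _, exists_ocd (chain N) ⟨0, by omega⟩ ⟨⟨1, by omega⟩, Or.inl rfl⟩, rfl⟩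
  obtain ⟨S, hS, hcard⟩ := Nat.sInf_mem hne
  have h1 := card_compl_le S hS
  rw [Finset.card_compl, Fintype.card_fin] at h1
  unfold outerConnectedDominationNumber
  omega

/-- The path edge `x, x+1` of the chain. -/
def pathEdge {N : ℕ} (x : ℕ) (h : x + 1 < 4 * N) : (chain N).edgeSet :=
  ⟨s(⟨x, by omega⟩, ⟨x + 1, h⟩), by
    rw [SimpleGraph.mem_edgeSet]; exact Or.inl rfl⟩

/-- The chord `4i, 4i+2` of the chain. -/
def chord {N : ℕ} (i : Fin N) : (chain N).edgeSet :=
  ⟨s(⟨4 * i.val, by omega⟩, ⟨4 * i.val + 2, by omega⟩), by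
    rw [SimpleGraph.mem_edgeSet]; exact Or.inr (Or.inr (Or.inl ⟨by simp, rfl⟩))⟩

/-- The odd vertex `2j+1` of the chain. -/
def oddV {N : ℕ} (j : Fin (2 * N)) : Fin (4 * N) := ⟨2 * j.val + 1, by omega⟩

open Classical in
/-- The outer-connected dominating set of the middle graph: odd vertices and chords. -/
noncomputable def S0 (N : ℕ) : Finset (Fin (4 * N) ⊕ (chain N).edgeSet) :=
  (Finset.univ : Finset (Fin (2 * N) ⊕ Fin N)).image
    (Sum.elim (fun j => Sum.inl (oddV j)) (fun i => Sum.inr (chord i)))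

theorem S0_card (N : ℕ) : (S0 N).card ≤ 3 * N := by
  unfold S0
  refine Finset.card_image_le.trans ?_
  rw [Finset.card_univ, Fintype.card_sum, Fintype.card_fin, Fintype.card_fin]
  omega

theorem mem_S0_inl {N : ℕ} (v : Fin (4 * N)) : Sum.inl v ∈ S0 N ↔ v.val % 2 = 1 := by
  unfold S0
  simp only [Finset.mem_image, Finset.mem_univ, true_and, Sum.exists, Sum.elim_inl, Sum.elim_inr,
    Sum.inl.injEq, reduceCtorEq, exists_false, or_false]
  constructor
  · rintro ⟨j, rfl⟩
    simp only [oddV]; omega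
  · intro h
    refine ⟨⟨v.val / 2, by have := v.isLt; omega⟩, ?_⟩
    apply Fin.ext
    simp only [oddV]; omega

theorem mem_S0_inr {N : ℕ} (e : (chain N).edgeSet) : Sum.inr e ∈ S0 N ↔ ∃ i, e = chord i := by
  unfold S0
  simp only [Finset.mem_image, Finset.mem_univ, true_and, Sum.exists, Sum.elim_inl, Sum.elim_inr,
    Sum.inr.injEq, reduceCtorEq, exists_false, false_or]
  constructor
  · rintro ⟨i, rfl⟩; exact ⟨i, rfl⟩
  · rintro ⟨i, rfl⟩; exact ⟨i, rfl⟩

theorem edge_cases {N : ℕ} (e : (chain N).edgeSet) :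
    (∃ (x : ℕ) (h : x + 1 < 4 * N), e = pathEdge x h) ∨ ∃ i, e = chord i := by
  obtain ⟨e, he⟩ := e
  induction e using Sym2.ind with
  | _ a b =>
    rw [SimpleGraph.mem_edgeSet] at he
    have he' := he
    rw [chain_adj] at he'
    rcases he' with h | h | ⟨h, h'⟩ | ⟨h, h'⟩
    · left
      refine ⟨a.val, by have := b.isLt; omega, ?_⟩
      apply Subtype.ext
      simp only [pathEdge]
      rw [Sym2.eq_iff]
      left
      exact ⟨Fin.ext rfl, Fin.ext h.symm⟩
    · left
      refine ⟨b.val, by have := a.isLt; omega, ?_⟩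
      apply Subtype.ext
      simp only [pathEdge]
      rw [Sym2.eq_iff]
      right
      exact ⟨Fin.ext h.symm, Fin.ext rfl⟩
    · right
      refine ⟨⟨a.val / 4, by have := a.isLt; omega⟩, ?_⟩
      apply Subtype.ext
      simp only [chord]
      rw [Sym2.eq_iff]
      left
      exact ⟨Fin.ext (by simp; omega), Fin.ext (by simp; omega)⟩
    · right
      refine ⟨⟨b.val / 4, by have := b.isLt; omega⟩, ?_⟩
      apply Subtype.ext
      simp only [chord]
      rw [Sym2.eq_iff]
      right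
      exact ⟨Fin.ext (by simp; omega), Fin.ext (by simp; omega)⟩

theorem pathEdge_not_mem {N : ℕ} (x : ℕ) (h : x + 1 < 4 * N) :
    (Sum.inr (pathEdge x h) : Fin (4 * N) ⊕ (chain N).edgeSet) ∉ S0 N := by
  rw [mem_S0_inr]
  rintro ⟨i, hi⟩
  have h1 := congrArg Subtype.val hi
  simp only [pathEdge, chord] at h1
  rw [Sym2.eq_iff] at h1
  simp only [Fin.mk.injEq] at h1
  omega

theorem S0_dominating (N : ℕ) : IsDominating (middleGraph (chain N)) (S0 N) := by
  rintro (v | e)
  · by_cases hv : v.val % 2 = 1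
    · exact ⟨Sum.inl v, (mem_S0_inl v).mpr hv, Or.inl rfl⟩
    · refine ⟨Sum.inr (chord ⟨v.val / 4, by have := v.isLt; omega⟩),
        (mem_S0_inr _).mpr ⟨_, rfl⟩, Or.inr ?_⟩
      change v ∈ s(_, _)
      rw [Sym2.mem_iff]
      have h4 : v.val % 4 = 0 ∨ v.val % 4 = 2 := by omega
      rcases h4 with h4 | h4
      · left; apply Fin.ext; simp; omega
      · right; apply Fin.ext; simp; omega
  · rcases edge_cases e with ⟨x, h, rfl⟩ | ⟨i, rfl⟩
    · rcases Nat.even_or_odd x with hx | hx
      · refine ⟨Sum.inl ⟨x + 1, h⟩, (mem_S0_inl _).mpr (by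
          simp only; obtain ⟨y, hy⟩ := hx; omega), Or.inr ?_⟩
        change _ ∈ s(_, _)
        rw [Sym2.mem_iff]
        right; rfl
      · refine ⟨Sum.inl ⟨x, by omega⟩, (mem_S0_inl _).mpr (by
          simp only; obtain ⟨y, hy⟩ := hx; omega), Or.inr ?_⟩
        change _ ∈ s(_, _)
        rw [Sym2.mem_iff]
        left; rfl
    · exact ⟨Sum.inr (chord i), (mem_S0_inr _).mpr ⟨i, rfl⟩, Or.inl rfl⟩

theorem S0_connected {N : ℕ} (hN : 0 < N) :
    ((middleGraph (chain N)).induce
      {v : Fin (4 * N) ⊕ (chain N).edgeSet | v ∉ S0 N}).Connected := by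
  let r : {v : Fin (4 * N) ⊕ (chain N).edgeSet | v ∉ S0 N} :=
    ⟨Sum.inr (pathEdge 0 (by omega)), pathEdge_not_mem _ _⟩
  have : Nonempty {v : Fin (4 * N) ⊕ (chain N).edgeSet | v ∉ S0 N} := ⟨r⟩
  have hpath : ∀ (x : ℕ) (h : x + 1 < 4 * N),
      ((middleGraph (chain N)).induce
        {v : Fin (4 * N) ⊕ (chain N).edgeSet | v ∉ S0 N}).Reachable r
        ⟨Sum.inr (pathEdge x h), pathEdge_not_mem _ _⟩ := by
    intro x
    induction x with
    | zero => intro h; exact SimpleGraph.Reachable.refl _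
    | succ x ih =>
      intro h
      refine (ih (by omega)).trans (SimpleGraph.Adj.reachable ?_)
      change pathEdge x _ ≠ pathEdge (x + 1) _ ∧ ∃ v : Fin (4 * N), v ∈ s(_, _) ∧ v ∈ s(_, _)
      refine ⟨?_, ⟨x + 1, by omega⟩, ?_, ?_⟩
      · intro hh
        have h1 := congrArg Subtype.val hh
        simp only [pathEdge] at h1
        rw [Sym2.eq_iff] at h1
        simp only [Fin.mk.injEq] at h1
        omega
      · rw [Sym2.mem_iff]; right; rfl
      · rw [Sym2.mem_iff]; left; rfl
  have hall : ∀ v : {v : Fin (4 * N) ⊕ (chain N).edgeSet | v ∉ S0 N},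
      ((middleGraph (chain N)).induce
        {v : Fin (4 * N) ⊕ (chain N).edgeSet | v ∉ S0 N}).Reachable r v := by
    rintro ⟨v | e, hv⟩
    · have hv' : ¬ (v.val % 2 = 1) := by
        intro h; exact hv ((mem_S0_inl v).mpr h)
      have hlt : v.val + 1 < 4 * N := by have := v.isLt; omega
      refine (hpath v.val hlt).trans (SimpleGraph.Adj.reachable ?_)
      change v ∈ s(_, _)
      rw [Sym2.mem_iff]
      left; rfl
    · rcases edge_cases e with ⟨x, h, rfl⟩ | ⟨i, rfl⟩
      · exact hpath x h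
      · exact (hv ((mem_S0_inr _).mpr ⟨i, rfl⟩)).elim
  refine SimpleGraph.Connected.mk ?_
  intro a b
  exact (hall a).symm.trans (hall b)

theorem upper {N : ℕ} (hN : 0 < N) :
    outerConnectedDominationNumber (middleGraph (chain N)) ≤ 3 * N := by
  refine le_trans (Nat.sInf_le ⟨S0 N, ⟨S0_dominating N, S0_connected hN⟩, rfl⟩) (S0_card N)

/-- For every `k` there is a finite connected graph `G` of order at least two with
`γ̃_c(M(G)) + k ≤ γ̃_c(G)`. -/
theorem result : ∀ k : ℕ, ∃ (n : ℕ) (G : SimpleGraph (Fin n)), 2 ≤ n ∧ G.Connected ∧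
    outerConnectedDominationNumber (middleGraph G) + k ≤ outerConnectedDominationNumber G := by
  intro k
  refine ⟨4 * (k + 4), chain (k + 4), by omega, chain_connected (by omega), ?_⟩
  have h1 := upper (N := k + 4) (by omega)
  have h2 := lower (N := k + 4) (by omega)
  omega

end Pool.Agent.Results.MP_43f51c_co.UnboundedGap
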